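import Pool.Agent.Y719.BP.Main

/-!
# Modularity of mod `p` representations is decided by `[F : ℚ]` moduli on the edge

Let `F` be any number field, for example totally real, of degree `d` over `ℚ`, and `ρ` an irreducible
representation of `G_F` over the algebraic closure of `𝔽_p`.  Let `T` be an injective multiplicative map
from the algebraic closure of `𝔽_p` to `ℂ`, for example the Teichmueller lift followed by an embedding.
The Euler product `L(T ρ, s)` with the eigenvalues `T(α)` for the eigenvalues `α` of the Frobenius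
elements is the `L`-function of the Brauer character of `ρ`.  Let `W_j` be finitely many irreducible
representations, for example reductions of the `p`-adic representations of Hilbert modular
eigenforms, and `m_j` integers of any sign.  Let `ψ` be one function of absolute value `1` on the
places which separates the places above each prime number.  If for `0 ≤ i < d` the logarithm of
`|L(T ρ ⊗ ψ^i, s)| / ∏_j |L(T W_j ⊗ ψ^i, s)| ^ m_j` on the line `Re s = 1` is concentrated, for
example constant on a set of positive upper density, then `ρ` is isomorphic to a `W_j` with `m_j > 0`.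
The proof uses a version with integral powers of the theorem of Brauer and Nesbitt.
-/

set_option autoImplicit false

namespace Pool.Agent.Results.MP_cab3fc_nt.PowersOfModuli

open NumberField IsDedekindDomain MeasureTheory Filter Topology Polynomial

/-- The lift to `ℂ` of a monic polynomial `Q` over the algebraic closure of `𝔽_p`:
`∏ (1 - T(α) X)` for the roots `α` of `Q`. -/
noncomputable def lift {p : ℕ} [Fact p.Prime] (T : AlgebraicClosure (ZMod p) →*₀ ℂ)
    (Q : (AlgebraicClosure (ZMod p))[X]) : ℂ[X] :=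
  (Q.roots.map fun α => 1 - C (T α) * X).prod

section
variable {F : Type} [Field F] [NumberField F] {p : ℕ} [Fact p.Prime] {n : ℕ}

/-- `g` is a Frobenius element at `v`: for some maximal ideal `Q` above `v` of the ring of all
algebraic integers, `g x ≡ x ^ N(v)` modulo `Q` for all `x`. -/
def Frobenius (v : HeightOneSpectrum (𝓞 F)) (g : Gal(AlgebraicClosure F/F)) : Prop :=
  ∃ Q : Ideal (𝓞 (AlgebraicClosure F)), Q.IsMaximal ∧
    Q.comap (algebraMap (𝓞 F) (𝓞 (AlgebraicClosure F))) = v.asIdeal ∧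
    ∀ x : 𝓞 (AlgebraicClosure F), g • x - x ^ Ideal.absNorm v.asIdeal ∈ Q

/-- `g` lies in an inertia group at `v`: for some maximal ideal `Q` above `v` of the ring of all
algebraic integers, `g x ≡ x` modulo `Q` for all `x`. -/
def Inertia (v : HeightOneSpectrum (𝓞 F)) (g : Gal(AlgebraicClosure F/F)) : Prop :=
  ∃ Q : Ideal (𝓞 (AlgebraicClosure F)), Q.IsMaximal ∧
    Q.comap (algebraMap (𝓞 F) (𝓞 (AlgebraicClosure F))) = v.asIdeal ∧
    ∀ x : 𝓞 (AlgebraicClosure F), g • x - x ∈ Q

/-- The matrix of `g`. -/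
noncomputable def matrix
    (ρ : Gal(AlgebraicClosure F/F) →* GL (Fin n) (AlgebraicClosure (ZMod p)))
    (g : Gal(AlgebraicClosure F/F)) : Matrix (Fin n) (Fin n) (AlgebraicClosure (ZMod p)) :=
  (ρ g : GL (Fin n) (AlgebraicClosure (ZMod p)))

/-- `ρ` is continuous, for the discrete topology: its kernel is open. -/
def Cont (ρ : Gal(AlgebraicClosure F/F) →* GL (Fin n) (AlgebraicClosure (ZMod p))) : Prop :=
  IsOpen (ρ.ker : Set Gal(AlgebraicClosure F/F))

/-- `ρ` is irreducible. -/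
def Irreducible (ρ : Gal(AlgebraicClosure F/F) →* GL (Fin n) (AlgebraicClosure (ZMod p))) :
    Prop :=
  0 < n ∧ ∀ W : Submodule (AlgebraicClosure (ZMod p)) (Fin n → AlgebraicClosure (ZMod p)),
    (∀ g, ∀ x ∈ W, (matrix ρ g).mulVec x ∈ W) → W = ⊥ ∨ W = ⊤

/-- `v` lies above a prime number in `S`. -/
def Bad (S : Finset ℕ) (v : HeightOneSpectrum (𝓞 F)) : Prop :=
  ∃ q ∈ S, (q : 𝓞 F) ∈ v.asIdeal

/-- `Q` is the family of characteristic polynomials of `ρ` away from `S`: `Q_v` is `1` for `v` above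
`S`; for all other `v` the representation is unramified and `Q_v` is the characteristic polynomial of
`ρ(g)` for the Frobenius elements `g` at `v`. -/
structure FrobeniusPolynomials (S : Finset ℕ)
    (ρ : Gal(AlgebraicClosure F/F) →* GL (Fin n) (AlgebraicClosure (ZMod p)))
    (Q : HeightOneSpectrum (𝓞 F) → (AlgebraicClosure (ZMod p))[X]) : Prop where
  bad : ∀ v, Bad S v → Q v = 1
  unramified : ∀ v, ¬ Bad S v → ∀ g, Inertia v g → ρ g = 1
  frobenius : ∀ v, ¬ Bad S v → ∀ g, Frobenius v g → (matrix ρ g).charpoly = Q v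

/-- `ψ` separates the places above each prime number, up to the degree `M`. -/
def Separates (ψ : HeightOneSpectrum (𝓞 F) → ℂ) (M : ℕ) : Prop :=
  ∀ v w : HeightOneSpectrum (𝓞 F), v ≠ w → ∀ k l : ℕ, 1 ≤ k → k ≤ M → 1 ≤ l → l ≤ M →
    Ideal.absNorm v.asIdeal ^ k = Ideal.absNorm w.asIdeal ^ l → ψ v ^ k ≠ ψ w ^ l

/-- The Euler product with the lifts of the polynomials `Q_v`, twisted by `ψ^i`: the product of
`(1 - T(α) ψ(v)^i Nv^{-s})⁻¹` over the places `v` and the roots `α` of `Q_v`. -/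
noncomputable def L (T : AlgebraicClosure (ZMod p) →*₀ ℂ)
    (Q : HeightOneSpectrum (𝓞 F) → (AlgebraicClosure (ZMod p))[X])
    (ψ : HeightOneSpectrum (𝓞 F) → ℂ) (i : ℕ) (s : ℂ) : ℂ :=
  ∏' v : HeightOneSpectrum (𝓞 F),
    ((lift T (Q v)).eval (ψ v ^ i * (Ideal.absNorm v.asIdeal : ℂ) ^ (-s)))⁻¹

/-- The limit of `|L(1 + σ + iτ)|` for `σ → 0`, `σ > 0`. -/
noncomputable def edgeAbs (T : AlgebraicClosure (ZMod p) →*₀ ℂ)
    (Q : HeightOneSpectrum (𝓞 F) → (AlgebraicClosure (ZMod p))[X])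
    (ψ : HeightOneSpectrum (𝓞 F) → ℂ) (i : ℕ) (τ : ℝ) : ℝ :=
  limUnder (𝓝[>] (0 : ℝ)) fun σ : ℝ => ‖L T Q ψ i (1 + σ + τ * Complex.I)‖

end

/-- The values of `f` are concentrated: there is `δ > 0` such that for every `ε > 0` there are
arbitrarily large `T` and a real number `x` with `|f - x| < ε` on a subset of `(0, T]` of measure at
least `δ T`. -/
def Concentrated (f : ℝ → ℝ) : Prop :=
  ∃ δ : ℝ, 0 < δ ∧ ∀ ε : ℝ, 0 < ε → ∃ᶠ T : ℝ in atTop, ∃ x : ℝ,
    ENNReal.ofReal (δ * T) ≤ volume {τ | τ ∈ Set.Ioc 0 T ∧ |f τ - x| < ε}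

/-- **Moduli decide about modularity modulo `p`.**  Let `F` be a number field, `ρ` (dimension `n`) and
`W_j` (dimension `N_j`) irreducible continuous representations of `G_F` over the algebraic closure of
`𝔽_p`, unramified away from `S`, with the characteristic polynomials `Q` and `R_j` of the Frobenius
elements, and `m_j` integers.  Let `M` be at least `n + ∑_{m_j < 0} |m_j| N_j` and at least
`∑_{m_j > 0} m_j N_j`.  There are functions `ψ` of absolute value `1` on the places which separate the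
places up to the degree `M`.  Let `ψ` be such a function.  If for `0 ≤ i < [F : ℚ]` the logarithm of
`|L(T ρ ⊗ ψ^i, s)| / ∏_j |L(T W_j ⊗ ψ^i, s)| ^ m_j` on the line `Re s = 1` is concentrated, then `ρ` is
isomorphic to a `W_j` with `m_j > 0`. -/
theorem result (F : Type) [Field F] [NumberField F] (p : ℕ) [Fact p.Prime]
    (T : AlgebraicClosure (ZMod p) →*₀ ℂ) (hT : Function.Injective T) (S : Finset ℕ)
    (hS : ∀ q ∈ S, q.Prime) (κ : Type) [Fintype κ] (n : ℕ) (N : κ → ℕ) (m : κ → ℤ)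
    (ρ : Gal(AlgebraicClosure F/F) →* GL (Fin n) (AlgebraicClosure (ZMod p)))
    (W : ∀ j, Gal(AlgebraicClosure F/F) →* GL (Fin (N j)) (AlgebraicClosure (ZMod p)))
    (Q : HeightOneSpectrum (𝓞 F) → (AlgebraicClosure (ZMod p))[X])
    (R : κ → HeightOneSpectrum (𝓞 F) → (AlgebraicClosure (ZMod p))[X])
    (hρ : Cont ρ) (hirr : Irreducible ρ) (hQ : FrobeniusPolynomials S ρ Q)
    (hW : ∀ j, Cont (W j)) (hWirr : ∀ j, Irreducible (W j))
    (hR : ∀ j, FrobeniusPolynomials S (W j) (R j))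
    (M : ℕ) (hM : n + ∑ j, (-m j).toNat * N j ≤ M) (hM' : ∑ j, (m j).toNat * N j ≤ M) :
    (∃ ψ : HeightOneSpectrum (𝓞 F) → ℂ, (∀ v, ‖ψ v‖ = 1) ∧ Separates ψ M) ∧
    ∀ ψ : HeightOneSpectrum (𝓞 F) → ℂ, (∀ v, ‖ψ v‖ ≤ 1) → Separates ψ M →
      (∀ i < Module.finrank ℚ F, Concentrated fun τ => Real.log (edgeAbs T Q ψ i τ) -
        ∑ j, m j * Real.log (edgeAbs T (R j) ψ i τ)) →
      ∃ j, 0 < m j ∧ ∃ E : (Fin n → AlgebraicClosure (ZMod p)) ≃ₗ[AlgebraicClosure (ZMod p)]
          (Fin (N j) → AlgebraicClosure (ZMod p)),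
        ∀ g x, E ((matrix ρ g).mulVec x) = (matrix (W j) g).mulVec (E x) := by
  classical
  refine ⟨?_, fun ψ hψ hsep hc => ?_⟩
  · obtain ⟨ψ, h1, h2⟩ := Pool.Agent.Y719.EL.N.exists_sep (K := F) M
    exact ⟨ψ, h1, fun v w hvw k l hk hkN hl hlN _ => h2 v w hvw k l hk hkN hl hlN⟩
  have hs := Pool.Agent.Y719.EL.N.sep_pow (N := M) (K := F) (ψ := ψ) hsep
  have hnorm : ∀ (i : Fin (Module.finrank ℚ F)) (v : HeightOneSpectrum (𝓞 F)),
      ‖ψ v ^ (i : ℕ)‖ ≤ 1 := fun i v => by
    rw [norm_pow]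
    exact pow_le_one₀ (norm_nonneg _) (hψ v)
  have he : ∀ (Q : HeightOneSpectrum (𝓞 F) → (AlgebraicClosure (ZMod p))[X]) (i : ℕ) (τ : ℝ),
      Pool.Agent.Y719.EL.N.eA 0 (fun v => Pool.Agent.Y719.BP.lift T (Q v)) (fun v => ψ v ^ i) τ =
        edgeAbs T Q ψ i τ := by
    intro Q i τ
    have hL : ∀ s, Pool.Agent.Y719.EL.N.LS (fun v => Pool.Agent.Y719.BP.lift T (Q v))
      (fun v => ψ v ^ i) s = L T Q ψ i s := fun s => rfl
    unfold Pool.Agent.Y719.EL.N.eA edgeAbs
    congr 1
    funext σ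
    rw [hL]
    congr 2
    push_cast
    ring
  have hF : ∀ {N : ℕ} (W : Gal(AlgebraicClosure F/F) →* GL (Fin N) (AlgebraicClosure (ZMod p)))
      (R : HeightOneSpectrum (𝓞 F) → (AlgebraicClosure (ZMod p))[X]),
      FrobeniusPolynomials S W R →
      Pool.Agent.Y719.BP.Fac (Pool.Agent.Y719.NG.bad F S) W R := fun W R h =>
    ⟨h.bad, fun v hv g hg => h.frobenius v hv g hg⟩
  exact Pool.Agent.Y719.BP.modp T hT (Pool.Agent.Y719.NG.bad F S)
    (Pool.Agent.Y719.NG.bad_finite hS) hρ hW hirr hWirr (hF ρ Q hQ)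
    (fun j => hF (W j) (R j) (hR j)) hnorm hM hM' hs (fun i => by
      simp_rw [he]
      exact hc i i.2)

end Pool.Agent.Results.MP_cab3fc_nt.PowersOfModuli
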